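import Pool.Agent.Y646.RS.Form
import Pool.Agent.Y759.RS.Iter
import Pool.Agent.Y759.RS.Qr
import Pool.Agent.Y681.RS.Flip
import Pool.Agent.Y899.RS.Mark
import Pool.Agent.Y836.RS.Small
import Pool.Agent.Y436.RS.Ind
import Pool.Agent.Y314.RS.Inv
import Pool.Agent.Y314.RS.Cnt
import Pool.Agent.Y291.RS.Niv
import Pool.Agent.Y952.RS.Cmp

/-!
# Project RS: the theorems of part 1
-/

set_option autoImplicit false

namespace Pool.Agent.Y105.RS

theorem h_iter : S_ITER := Pool.Agent.Y759.RS.iter Pool.Agent.Y646.RS.form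

theorem h_qr : S_QR := Pool.Agent.Y759.RS.qr h_iter

theorem h_flip : S_FLIP := Pool.Agent.Y681.RS.flip

theorem h_mark : S_MARK := Pool.Agent.Y899.RS.mark

theorem h_small : S_SMALL := Pool.Agent.Y836.RS.small_cycles h_qr h_flip h_mark

theorem h_ind : S_IND := Pool.Agent.Y436.RS.ind

theorem h_inv : S_INV := Pool.Agent.Y314.RS.inv

theorem h_cnt : S_CNT := Pool.Agent.Y314.RS.cnt

theorem h_niv : S_NIV := Pool.Agent.Y291.RS.niv h_qr h_flip h_small h_ind h_inv h_cnt

theorem h_cmp : S_CMP := Pool.Agent.Y952.RS.cmp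

end Pool.Agent.Y105.RS
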