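import Pool.Agent.Y105.RS.Stm
import Pool.Agent.TH268.PD.Fin1

/-!
# Project RS: statements for weighted random stirring (helper105)

Weights such as `ϑ ^ (number of cycles)`; statements for Hamming graphs.
-/

set_option autoImplicit false

open Finset Equiv

namespace Pool.Agent.Y105.RS

open Pool.Agent.TH268.PD (law)

/-- **RS-QRW.** `S_QR` for words with a weight `W ≤ W'`, `W'` not larger than `exp b` times its
mean. -/
def S_QRW : Prop := ∀ (V : Type) [Fintype V] [DecidableEq V] [Nonempty V] (p r : V → V → ℝ)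
  (κ τ : ℝ), Wt p → Ker r κ → 0 ≤ τ → Cmp p r τ → ∀ (m M : ℕ), 2 ≤ m → 1 ≤ M →
  ∀ (T : Type) [Fintype T] [Nonempty T] (h : T → Fin m → Fin m → ℝ),
  (∀ t a b, h t a b = h t b a) → (∀ t a b, |h t a b| ≤ 1) →
  ∀ (W W' : (Fin M → Lt V) → ℝ) (b : ℝ), (∀ w, 0 ≤ W w) → (∀ w, W w ≤ W' w) → 0 ≤ b →
  (∀ w, W' w ≤ Real.exp b * mean p M W') →
  ∀ (t : (Fin M → Lt V) → T) (c : (Fin M → Lt V) → V → Fin m),
    |mean p M (fun w => W w * ((∑ j, (h (t w) (c w (la w j)) (c w (lb w j)) -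
        gg p r (h (t w)) (c w ∘ pre w j))) / M))| ≤
      (20 * Real.sqrt ((1 + τ) *
        (Fintype.card V * Real.log m + Real.log (Fintype.card T) + b) / M) + 4 * κ) *
          mean p M W'

/-- **RS-SMALLW.** Few points are in short cycles, with weights. -/
def S_SMALLW : Prop := ∃ C : ℝ, 0 < C ∧ ∀ (V : Type) [Fintype V] [DecidableEq V] [Nonempty V]
  (p r : V → V → ℝ) (κ τ : ℝ), Wt p → Ker r κ → 0 ≤ τ → Cmp p r τ →
  ∀ (m M K : ℕ), 2 ≤ m → 1 ≤ M → 1 ≤ K → ∀ (Θ Θ' : Perm V → ℝ) (b Q : ℝ), (∀ g, 0 ≤ Θ g) →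
  (∀ g, Θ g ≤ Θ' g) → 1 ≤ Q → (∀ g x y, Θ (swap x y * g) ≤ Q * Θ' g) → 0 ≤ b →
  (∀ g, Θ' g ≤ Real.exp b * mean p M (fun w => Θ' (wp w))) →
    mean p M (fun w => Θ (wp w) * small K (wp w)) ≤
      C * Q * (1 / m + K * κ + Real.sqrt ((1 + τ) * (Fintype.card V * Real.log m + b) / M)) *
        mean p M (fun w => Θ' (wp w))

/-- the number of cycles, fixed points included -/
noncomputable def nc {V : Type} (g : Perm V) : ℕ :=
  Nat.card (Quotient (Perm.SameCycle.setoid g))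

/-- **RS-NC.** The number of cycles. -/
def S_NC : Prop :=
  (∀ (V : Type) [Fintype V] [DecidableEq V] (g : Perm V), nc g ≤ Fintype.card V) ∧
  (∀ (V : Type) [Fintype V] [DecidableEq V] (g A : Perm V), nc (A⁻¹ * g * A) = nc g) ∧
  (∀ (V : Type) [Fintype V] [DecidableEq V] (g : Perm V) (a b : V), a ≠ b →
    ((swap a b * g).SameCycle a b ↔ ¬ g.SameCycle a b) ∧
    (¬ g.SameCycle a b → nc (swap a b * g) + 1 = nc g) ∧
    (g.SameCycle a b → nc (swap a b * g) = nc g + 1)) ∧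
  (∀ (V : Type) [Fintype V] [DecidableEq V] (g : Perm V) (k : ℕ) (z : Fin k → V)
    (π : Perm (Fin k)), Function.Injective z → Ind g z π → ∀ i j,
      (g.SameCycle (z i) (z j) ↔ π.SameCycle i j))

/-- **RS-NIVW.** The law of the induced permutation of `k` random points with the weight
`ϑ ^ (number of cycles)` is almost invariant. -/
def S_NIVW : Prop := ∀ (k : ℕ) (η ϑ : ℝ), 0 < η → 0 < ϑ → ∃ A : ℝ, 0 < A ∧
  ∀ (V : Type) [Fintype V] [DecidableEq V] [Nonempty V] (p : V → V → ℝ) (τ : ℝ), Wt p → 0 ≤ τ →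
  Cmp p (fun _ _ => 1 / (Fintype.card V : ℝ)) τ → ∀ M : ℕ, A ≤ Fintype.card V →
  A * (1 + τ) * Fintype.card V ≤ M → ∀ (i j : Fin k) (π : Perm (Fin k)), i ≠ j →
    |mean p M (fun w => ϑ ^ nc (wp w) * tup k (wp w) π) * ϑ ^ nc (swap i j * π) -
      mean p M (fun w => ϑ ^ nc (wp w) * tup k (wp w) (swap i j * π)) * ϑ ^ nc π| ≤
        η * mean p M (fun w => ϑ ^ nc (wp w))

/-- **RS-EWF.** Almost invariance implies the Ewens law. -/
def S_EWF : Prop := ∀ (k : ℕ) (ϑ η : ℝ), 0 < ϑ → 0 < η → ∃ ε A : ℝ, 0 < ε ∧ 0 < A ∧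
  ∀ (X : Perm (Fin k) → ℝ) (Z : ℝ), (∀ π, 0 ≤ X π) → 0 ≤ Z →
  (1 - (k : ℝ) ^ 2 / A) * Z ≤ ∑ π, X π → ∑ π, X π ≤ Z →
  (∀ (i j : Fin k) (π : Perm (Fin k)), i ≠ j →
    |X π * ϑ ^ nc (swap i j * π) - X (swap i j * π) * ϑ ^ nc π| ≤ ε * Z) →
  ∀ π, |X π - ϑ ^ nc π / (∑ σ : Perm (Fin k), ϑ ^ nc σ) * Z| ≤ η * Z

/-- **RS-TUP.** All tuples of different points have exactly one induced permutation. -/
def S_TUP : Prop := ∀ (V : Type) [Fintype V] [DecidableEq V] [Nonempty V] (k : ℕ) (g : Perm V),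
  (∀ π, 0 ≤ tup k g π) ∧ ∑ π, tup k g π ≤ 1 ∧
    1 - (k : ℝ) ^ 2 / Fintype.card V ≤ ∑ π, tup k g π

/-- **RS-ROT.** Rotation of the words. -/
def S_ROT : Prop := ∀ (V : Type) [Fintype V] [DecidableEq V] (p : V → V → ℝ) (M : ℕ)
  (j : Fin M) (Ψ : Perm V → ℝ),
    mean p M (fun w => Ψ ((pre w j)⁻¹ * wp w * pre w j)) = mean p M (fun w => Ψ (wp w))

open Classical in
/-- **RS-PAIR.** The probability that two points near each other are in the same cycle. -/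
def S_PAIR : Prop := ∃ C : ℝ, 0 < C ∧ ∀ ϑ : ℝ, 0 < ϑ →
  ∀ (V : Type) [Fintype V] [DecidableEq V] [Nonempty V] (p r : V → V → ℝ) (κ τ : ℝ), Wt p →
  Ker r κ → 0 ≤ τ → Cmp p r τ → ∀ (m M : ℕ), 2 ≤ m → 1 ≤ M →
    |∑ x, ∑ y, p x y * ∑ z, r y z * mean p M (fun w => ϑ ^ nc (wp w) *
        (if (wp w).SameCycle x z then 1 else 0)) -
      1 / (1 + ϑ) * mean p M (fun w => ϑ ^ nc (wp w))| ≤
      C * (1 / m + κ + Real.sqrt ((1 + τ) *
        (Fintype.card V * (Real.log m + 2 * |Real.log ϑ|)) / M)) *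
        mean p M (fun w => ϑ ^ nc (wp w))

/-- **RS-POIW.** From words to random stirring in continuous time, with weights. -/
def S_POIW : Prop := ∀ (V : Type) [Fintype V] [DecidableEq V] [Nonempty V] (J : V → V → ℝ)
  (D t : ℝ) (Θ F : Perm V → ℝ) (C c η b : ℝ), (∀ x y, 0 ≤ J x y) → (∀ x, ∑ y, J x y = D) →
  0 < D → 0 < t → (∀ g, |F g| ≤ C) → |c| ≤ C → 0 ≤ η → 0 ≤ b →
  (∀ g, Real.exp (-b) ≤ Θ g) → (∀ g, Θ g ≤ Real.exp b) →
  (∀ M : ℕ, t * D * Fintype.card V / 2 ≤ M →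
    |mean (fun x y => J x y / (D * Fintype.card V)) M (fun w => Θ (wp w) * (F (wp w) - c))| ≤
      η * mean (fun x y => J x y / (D * Fintype.card V)) M (fun w => Θ (wp w))) →
  |∑ g, law J t g * (Θ g * (F g - c))| ≤
    (η + 2 * C * Real.exp (2 * b - t * D * Fintype.card V / 10)) * ∑ g, law J t g * Θ g

/-- **RS-EVT.** With probability close to `1` a quarter of all points is in macroscopic cycles. -/
def S_EVT : Prop := ∃ (A : ℝ), 0 < A ∧ ∀ (V : Type) [Fintype V] [DecidableEq V] [Nonempty V]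
  (p : V → V → ℝ) (τ : ℝ), Wt p → 0 ≤ τ → Cmp p (fun _ _ => 1 / (Fintype.card V : ℝ)) τ →
  ∀ M K : ℕ, 1 ≤ K → A * K ≤ Fintype.card V → A * (1 + τ) * Fintype.card V ≤ M →
    mean p M (fun w => if (3 / 4 : ℝ) ≤ small K (wp w) then 1 else 0) ≤
      Real.exp (-(Fintype.card V : ℝ)) + 2 * (1 / 2 : ℝ) ^ ((Fintype.card V : ℝ) / (8 * K))

/-- the uniform edge of the Hamming graph -/
noncomputable def hp (d k : ℕ) (x y : Fin d → Fin k) : ℝ :=
  if (univ.filter fun i => x i ≠ y i).card = 1 then 1 / ((k : ℝ) ^ d * d * (k - 1)) else 0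

/-- **RS-HCMP.** Comparison on the Hamming graph. -/
def S_HCMP : Prop := ∀ (d k : ℕ), 1 ≤ d → 2 ≤ k → Wt (hp d k) ∧
  Cmp (hp d k) (fun _ _ => 1 / (Fintype.card (Fin d → Fin k) : ℝ)) (4 * (d : ℝ) ^ 2)

end Pool.Agent.Y105.RS
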