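import Pool.Agent.Y105.RS.All1
import Pool.Agent.Y433.RS.Qrw
import Pool.Agent.Y433.RS.Shf
import Pool.Agent.Y837.RS.Evt
import Pool.Agent.Y941.RS.Poiw
import Pool.Agent.Y954.RS.Ewf
import Pool.Agent.Y727.RS.SmallW
import Pool.Agent.Y322.RS.Pair
import Pool.Agent.Y945.RS.Hcmp
import Pool.Agent.Y876.RS.Nc
import Pool.Agent.Y784.RS.Tup
import Pool.Agent.Y784.RS.Rot
import Pool.Agent.Y784.RS.Trv

/-!
# Project RS: the theorems of part 2
-/

set_option autoImplicit false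

namespace Pool.Agent.Y105.RS

theorem h_qrw : S_QRW := Pool.Agent.Y433.RS.qrw h_iter

theorem h_smallw : S_SMALLW := Pool.Agent.Y727.RS.smallw h_qrw h_flip h_mark

theorem h_nc : S_NC := Pool.Agent.Y876.RS.nc_all

theorem h_tup : S_TUP := Pool.Agent.Y784.RS.tup_all

theorem h_rot : S_ROT := Pool.Agent.Y784.RS.rot

theorem h_trv : S_TRV := Pool.Agent.Y784.RS.trv

theorem h_ewf : S_EWF := Pool.Agent.Y954.RS.ewf

theorem h_pair : S_PAIR := Pool.Agent.Y322.RS.pair h_qrw h_flip h_rot h_nc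

theorem h_poiw : S_POIW := Pool.Agent.Y941.RS.poiw

theorem h_evt : S_EVT := Pool.Agent.Y837.RS.evt h_smallw

theorem h_hcmp : S_HCMP := Pool.Agent.Y945.RS.hcmp

theorem h_shf : S_SHF := Pool.Agent.Y433.RS.shf

end Pool.Agent.Y105.RS
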