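import Pool.Agent.Y105.RS.AsmW

/-!
# Project RS: the Ewens law on the torus and the two point function
-/

set_option autoImplicit false

open Finset Equiv

namespace Pool.Agent.Y105.RS

open Pool.Agent.Y291.RS (mean_mono mean_smul mean_const mean_one mean_sub mean_sum)
open Pool.Agent.TH268.PD (law)

theorem tup_le_one (hT : S_TUP) {V : Type} [Fintype V] [DecidableEq V] [Nonempty V] {k : ℕ}
    (g : Perm V) (π : Perm (Fin k)) : tup k g π ≤ 1 :=
  (Finset.single_le_sum (f := fun π => tup k g π) (fun σ _ => (hT V k g).1 σ)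
    (Finset.mem_univ π)).trans (hT V k g).2.1

/-- **the Ewens law** -/
theorem ewens_J (hc : S_CMP) (hP : S_POIW) (hN : S_NC) (hV : S_NIVW) (hE : S_EWF) (hT : S_TUP)
    (d : ℕ) (hd : 1 ≤ d) (k : ℕ) (ϑ η : ℝ) (hϑ : 0 < ϑ) (hη : 0 < η) : ∃ A : ℝ, 0 < A ∧
    ∀ (L : ℕ) [NeZero L], 3 ≤ L → ∀ (D : ℝ) (J : (Fin d → ZMod L) → (Fin d → ZMod L) → ℝ),
      RR d L D J → ∀ t : ℝ, A ≤ L → A * (L : ℝ) ^ 2 ≤ t → ∀ π : Perm (Fin k),
      |∑ g, law J t g * (wt ϑ g * (tup k g π - wt ϑ π / ∑ σ : Perm (Fin k), wt ϑ σ))| ≤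
        η * ∑ g, law J t g * wt ϑ g := by
  obtain ⟨ε, A1, hε, hA1, HE⟩ := hE k ϑ (η / 2) hϑ (by positivity)
  obtain ⟨A2, hA2, HV⟩ := hV k ε ϑ hε hϑ
  obtain ⟨A, hAdef⟩ : ∃ A, A = A1 + A2 + 2 * A2 * (1 + 2 * d) +
    10 * (2 * |Real.log ϑ| + 8 / η) := ⟨_, rfl⟩
  have hdR : (0 : ℝ) < d := by exact_mod_cast hd
  have habs := abs_nonneg (Real.log ϑ)
  have hA0 : 0 < A := by rw [hAdef]; positivity
  refine ⟨A, hA0, ?_⟩
  intro L _ hL D J h t hAL hAt π
  have hLR : (3 : ℝ) ≤ L := by exact_mod_cast hL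
  have hL1 : (1 : ℝ) ≤ (L : ℝ) ^ 2 := by nlinarith
  have hp1 : 0 < A1 + 10 * (2 * |Real.log ϑ| + 8 / η) := by positivity
  have hp2 : 0 < A2 + 2 * A2 * (1 + 2 * d) := by positivity
  have hp3 : 0 < 2 * A2 * (1 + 2 * (d : ℝ)) := by positivity
  have hp4 : 0 < 10 * (2 * |Real.log ϑ| + 8 / η) := by positivity
  have hAt2 : A ≤ t := (le_mul_of_one_le_right hA0.le hL1).trans hAt
  have ht0 : 0 < t := lt_of_lt_of_le hA0 hAt2
  have hD1 : 1 ≤ D := D_ge hd h
  have hD0 : 0 < D := by linarith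
  have hnL : (L : ℝ) ≤ Fintype.card (Fin d → ZMod L) := by
    rw [card_tor]
    exact le_self_pow₀ (by linarith) (by omega)
  have hn0 : (0 : ℝ) < Fintype.card (Fin d → ZMod L) := by linarith
  have hp : Wt (pJ J D) := wt_J hD0 h
  have hS0 : 0 < ∑ σ : Perm (Fin k), wt ϑ σ :=
    Finset.sum_pos (fun σ _ => wt_pos hϑ σ) Finset.univ_nonempty
  have hq0 : 0 ≤ wt ϑ π / ∑ σ : Perm (Fin k), wt ϑ σ := div_nonneg (wt_pos hϑ π).le hS0.le
  have hq1 : wt ϑ π / ∑ σ : Perm (Fin k), wt ϑ σ ≤ 1 := by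
    rw [div_le_one hS0]
    exact Finset.single_le_sum (f := fun σ : Perm (Fin k) => wt ϑ σ)
      (fun σ _ => (wt_pos hϑ σ).le) (Finset.mem_univ π)
  refine poi_J hP hN hd h hϑ (fun g => tup k g π) _ η (8 / η) (fun g => ?_) ?_ hη le_rfl
    (by rw [hAdef] at hAt2; linarith) ?_
  · rw [abs_of_nonneg ((hT _ k g).1 π)]
    exact tup_le_one hT g π
  · rw [abs_of_nonneg hq0]; exact hq1
  · intro M hM
    have hM0 : (0 : ℝ) < M := lt_of_lt_of_le (by positivity) hM
    have hAM : A2 * (1 + 2 * d * D * (L : ℝ) ^ 2) * Fintype.card (Fin d → ZMod L) ≤ M := by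
      refine le_trans ?_ hM
      have e1 : A2 * (1 + 2 * d * D * (L : ℝ) ^ 2) ≤ t * D / 2 := by
        have e2 : 1 ≤ D * (L : ℝ) ^ 2 := by nlinarith
        have e3 : A2 * (1 + 2 * d * D * (L : ℝ) ^ 2) ≤ A2 * ((1 + 2 * d) * (D * (L : ℝ) ^ 2)) := by
          refine mul_le_mul_of_nonneg_left ?_ hA2.le
          nlinarith
        have e4 : 2 * A2 * (1 + 2 * d) * (L : ℝ) ^ 2 ≤ t := by
          refine le_trans (mul_le_mul_of_nonneg_right ?_ (by linarith)) hAt
          rw [hAdef]; linarith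
        have e5 : D * (2 * A2 * (1 + 2 * d) * (L : ℝ) ^ 2) ≤ D * t :=
          mul_le_mul_of_nonneg_left e4 hD0.le
        nlinarith
      calc A2 * (1 + 2 * d * D * (L : ℝ) ^ 2) * Fintype.card (Fin d → ZMod L)
          ≤ (t * D / 2) * Fintype.card (Fin d → ZMod L) :=
            mul_le_mul_of_nonneg_right e1 hn0.le
        _ = _ := by ring
    have hV' := HV (Fin d → ZMod L) (pJ J D) (2 * d * D * (L : ℝ) ^ 2) hp (by positivity)
      (cmp_full hc hd hL hD0 h) M (by rw [hAdef] at hAL; linarith) hAM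
    have hZ : 0 ≤ mean (pJ J D) M (fun w => wt ϑ (wp w)) := by
      rw [← mean_const hp M 0]
      exact mean_mono hp fun w => (wt_pos hϑ _).le
    have hX : ∀ σ : Perm (Fin k), 0 ≤ mean (pJ J D) M (fun w => wt ϑ (wp w) * tup k (wp w) σ) := by
      intro σ
      rw [← mean_const hp M 0]
      exact mean_mono hp fun w => mul_nonneg (wt_pos hϑ _).le ((hT _ k _).1 σ)
    have hsum : ∑ σ : Perm (Fin k), mean (pJ J D) M (fun w => wt ϑ (wp w) * tup k (wp w) σ) =
        mean (pJ J D) M (fun w => wt ϑ (wp w) * ∑ σ, tup k (wp w) σ) := by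
      rw [← mean_sum]
      simp only [Finset.mul_sum]
    have hs1 : ∑ σ : Perm (Fin k), mean (pJ J D) M (fun w => wt ϑ (wp w) * tup k (wp w) σ) ≤
        mean (pJ J D) M (fun w => wt ϑ (wp w)) := by
      rw [hsum]
      exact mean_mono hp fun w => mul_le_of_le_one_right (wt_pos hϑ _).le (hT _ k _).2.1
    have hs2 : (1 - (k : ℝ) ^ 2 / A1) * mean (pJ J D) M (fun w => wt ϑ (wp w)) ≤
        ∑ σ : Perm (Fin k), mean (pJ J D) M (fun w => wt ϑ (wp w) * tup k (wp w) σ) := by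
      rw [hsum, ← mean_smul]
      refine mean_mono hp fun w => ?_
      rw [mul_comm]
      refine mul_le_mul_of_nonneg_left ?_ (wt_pos hϑ _).le
      refine le_trans ?_ (hT _ k _).2.2
      have : (k : ℝ) ^ 2 / Fintype.card (Fin d → ZMod L) ≤ (k : ℝ) ^ 2 / A1 :=
        div_le_div_of_nonneg_left (by positivity) hA1 (by rw [hAdef] at hAL; linarith)
      linarith
    have h1 := HE (fun σ => mean (pJ J D) M (fun w => wt ϑ (wp w) * tup k (wp w) σ))
      (mean (pJ J D) M (fun w => wt ϑ (wp w))) hX hZ hs2 hs1 (fun i j σ hij => hV' i j σ hij) π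
    have e : mean (pJ J D) M (fun w => wt ϑ (wp w) *
        (tup k (wp w) π - wt ϑ π / ∑ σ : Perm (Fin k), wt ϑ σ)) =
        mean (pJ J D) M (fun w => wt ϑ (wp w) * tup k (wp w) π) -
          (wt ϑ π / ∑ σ : Perm (Fin k), wt ϑ σ) * mean (pJ J D) M (fun w => wt ϑ (wp w)) := by
      rw [← mean_smul, ← mean_sub]
      congr 1
      funext w
      ring
    rw [e]
    exact h1

/-- the indicator function of lying in the same cycle -/
noncomputable def sc {V : Type} (g : Perm V) (x z : V) : ℝ :=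
  open Classical in if g.SameCycle x z then 1 else 0

theorem sc_eq {V : Type} (g : Perm V) (x z : V) [Decidable (g.SameCycle x z)] :
    (if g.SameCycle x z then (1 : ℝ) else 0) = sc g x z := by
  unfold sc
  congr

theorem sc_nonneg {V : Type} (g : Perm V) (x z : V) : 0 ≤ sc g x z := by
  unfold sc; split_ifs <;> norm_num

theorem sc_le {V : Type} (g : Perm V) (x z : V) : sc g x z ≤ 1 := by
  unfold sc; split_ifs <;> norm_num

section

variable {d L : ℕ} [NeZero L]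

theorem rr_nn (hc : S_CMP) (hd : 1 ≤ d) (hL : 3 ≤ L) : RR d L (2 * d) (nnR d L) := by
  have hW := (hc d L L hd (by omega) (by omega) le_rfl).1
  have hdR : (0 : ℝ) < d := by exact_mod_cast hd
  have hLR : (0 : ℝ) < L := by exact_mod_cast (by omega : 0 < L)
  have hne : (2 * (d : ℝ) * (L : ℝ) ^ d) ≠ 0 := by positivity
  have e : ∀ x y, nnR d L x y = (2 * (d : ℝ) * (L : ℝ) ^ d) * nnp d L x y := by
    intro x y
    unfold nnp
    field_simp
  refine ⟨fun x y => ?_, fun x y => ?_, fun x => ?_, fun x => ?_, fun x k => ?_⟩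
  · unfold nnR; positivity
  · rw [e, e, hW.sym]
  · rw [e, hW.diag, mul_zero]
  · simp only [e]
    rw [← Finset.mul_sum, hW.reg, card_tor]
    field_simp
  · rw [nnR_eq hL]
    unfold Pool.Agent.Y998.ST.nnRate
    rw [if_pos ⟨k, Or.inl rfl⟩]

/-- **the two point function** -/
theorem pair_nn (hc : S_CMP) (hP : S_POIW) (hN : S_NC) (hPair : S_PAIR) (hShf : S_SHF)
    (hTr : S_TR2) (d : ℕ) (hd : 1 ≤ d) (ϑ η : ℝ) (hϑ : 0 < ϑ) (hη : 0 < η) : ∃ A : ℝ, 0 < A ∧
    ∀ (L : ℕ) [NeZero L], 3 ≤ L → ∀ (t : ℝ) (s : ℕ), A ≤ s → s ≤ L → A * (s : ℝ) ^ 2 ≤ t →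
      ∀ v : Fin d → ZMod L,
      |∑ z, bx d L s v z * (∑ g, law (nnR d L) t g * (wt ϑ g * sc g v z)) -
        1 / (1 + ϑ) * ∑ g, law (nnR d L) t g * wt ϑ g| ≤
        η * ∑ g, law (nnR d L) t g * wt ϑ g := by
  obtain ⟨C, hC, H⟩ := hPair
  obtain ⟨δ, hδdef⟩ : ∃ δ, δ = η / (12 * C) := ⟨_, rfl⟩
  have hδ : 0 < δ := by rw [hδdef]; positivity
  have hCδ : C * δ = η / 12 := by rw [hδdef]; field_simp
  obtain ⟨m₀, hm₀⟩ := exists_nat_gt (1 / δ)
  obtain ⟨m, hm⟩ : ∃ m : ℕ, m = max m₀ 2 := ⟨_, rfl⟩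
  have hm2 : 2 ≤ m := by rw [hm]; exact le_max_right _ _
  have hmR : (0 : ℝ) < m := by exact_mod_cast (by omega : 0 < m)
  have hmδ : 1 / (m : ℝ) ≤ δ := by
    have h1 : (m₀ : ℝ) ≤ m := by rw [hm]; exact_mod_cast le_max_left _ _
    rw [div_le_iff₀ hmR]
    rw [div_lt_iff₀ hδ] at hm₀
    nlinarith
  obtain ⟨ℓ, hℓdef⟩ : ∃ ℓ, ℓ = Real.log m + 2 * |Real.log ϑ| := ⟨_, rfl⟩
  have hlog : 0 < Real.log m := Real.log_pos (by exact_mod_cast (by omega : 1 < m))
  have hℓ : 0 < ℓ := by rw [hℓdef]; positivity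
  have hdR : (0 : ℝ) < d := by exact_mod_cast hd
  have habs := abs_nonneg (Real.log ϑ)
  obtain ⟨A, hAdef⟩ : ∃ A, A = 1 + 1 / δ + 4 / η + 10 * (2 * |Real.log ϑ| + 16 / η) +
    4 * (1 + 4 * (d : ℝ) ^ 2) * ℓ / δ ^ 2 := ⟨_, rfl⟩
  have hq1 : 0 < 1 / δ := by positivity
  have hq2 : 0 < 4 / η := by positivity
  have hq3 : 0 < 10 * (2 * |Real.log ϑ| + 16 / η) := by positivity
  have hq4 : 0 < 4 * (1 + 4 * (d : ℝ) ^ 2) * ℓ / δ ^ 2 := by positivity
  have hA1 : 1 ≤ A := by rw [hAdef]; linarith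
  refine ⟨A, by linarith, ?_⟩
  intro L _ hL t s hAs hsL hAt v
  have hs1 : 1 ≤ s := by
    have : (1 : ℝ) ≤ s := hA1.trans hAs
    exact_mod_cast this
  have hsR : (1 : ℝ) ≤ s := by exact_mod_cast hs1
  have hs2 : (1 : ℝ) ≤ (s : ℝ) ^ 2 := one_le_pow₀ hsR
  have hAt1 : A ≤ t := (le_mul_of_one_le_right (by linarith) hs2).trans hAt
  have ht0 : 0 < t := by linarith
  have hRR := rr_nn (d := d) (L := L) hc hd hL
  have hD0 : (0 : ℝ) < 2 * d := by positivity
  have hn1 : (1 : ℝ) ≤ Fintype.card (Fin d → ZMod L) := by exact_mod_cast Fintype.card_pos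
  have hn0 : (0 : ℝ) < Fintype.card (Fin d → ZMod L) := by linarith
  obtain ⟨p, hpdef⟩ : ∃ p, p = pJ (nnR d L) (2 * (d : ℝ)) := ⟨_, rfl⟩
  have hp : Wt p := by rw [hpdef]; exact wt_J hD0 hRR
  have hKer := ker_J hc hd hL hs1 hsL (d := d)
  obtain ⟨F, hFdef⟩ : ∃ F : Perm (Fin d → ZMod L) → ℝ,
    F = fun g => ∑ x, ∑ y, p x y * ∑ z, bx d L s y z * sc g x z := ⟨_, rfl⟩
  have hpsum : ∑ x, ∑ y, p x y = 1 := by
    rw [Finset.sum_congr rfl fun x _ => hp.reg x, Finset.sum_const, nsmul_eq_mul,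
      Finset.card_univ, mul_one_div, div_self hn0.ne']
  have hF0 : ∀ g, 0 ≤ F g := by
    intro g
    rw [hFdef]
    exact Finset.sum_nonneg fun x _ => Finset.sum_nonneg fun y _ => mul_nonneg (hp.nn x y)
      (Finset.sum_nonneg fun z _ => mul_nonneg (hKer.nn y z) (sc_nonneg g x z))
  have hF1 : ∀ g, F g ≤ 1 := by
    intro g
    rw [hFdef, ← hpsum]
    refine Finset.sum_le_sum fun x _ => Finset.sum_le_sum fun y _ =>
      mul_le_of_le_one_right (hp.nn x y) ?_
    rw [← hKer.sum y]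
    exact Finset.sum_le_sum fun z _ => mul_le_of_le_one_right (hKer.nn y z) (sc_le g x z)
  have hc1 : |1 / (1 + ϑ)| ≤ 1 := by
    rw [abs_of_pos (by positivity), div_le_one (by positivity)]
    linarith
  have key : |∑ g, law (nnR d L) t g * (wt ϑ g * (F g - 1 / (1 + ϑ)))| ≤
      η / 2 * ∑ g, law (nnR d L) t g * wt ϑ g := by
    refine poi_J hP hN hd hRR hϑ F (1 / (1 + ϑ)) (η / 2) (16 / η)
      (fun g => by rw [abs_of_nonneg (hF0 g)]; exact hF1 g) hc1 (by positivity)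
      (le_of_eq (by field_simp; norm_num)) (by rw [hAdef] at hAt1; linarith) ?_
    intro M hM
    rw [← hpdef]
    have hM0 : (0 : ℝ) < M := lt_of_lt_of_le (by positivity) hM
    have hM1 : 1 ≤ M := by exact_mod_cast (Nat.cast_pos (α := ℝ)).1 hM0
    have h1 := H ϑ hϑ (Fin d → ZMod L) p (bx d L s) (1 / (s : ℝ) ^ d)
      (2 * d * (2 * d) * (s : ℝ) ^ 2) hp hKer (by positivity)
      (by rw [hpdef]; exact cmp_J hc hd hL hs1 hsL hD0 hRR) m M hm2 hM1
    have hZ : 0 ≤ mean p M (fun w => wt ϑ (wp w)) := by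
      rw [← mean_const hp M 0]
      exact mean_mono hp fun w => (wt_pos hϑ _).le
    have e : mean p M (fun w => wt ϑ (wp w) * (F (wp w) - 1 / (1 + ϑ))) =
        ∑ x, ∑ y, p x y * ∑ z, bx d L s y z * mean p M (fun w => wt ϑ (wp w) * sc (wp w) x z) -
          1 / (1 + ϑ) * mean p M (fun w => wt ϑ (wp w)) := by
      have e1 : ∀ w : Fin M → Lt (Fin d → ZMod L), wt ϑ (wp w) * (F (wp w) - 1 / (1 + ϑ)) =
          (∑ x, ∑ y, p x y * ∑ z, bx d L s y z * (wt ϑ (wp w) * sc (wp w) x z)) -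
            1 / (1 + ϑ) * wt ϑ (wp w) := by
        intro w
        rw [hFdef, mul_sub, Finset.mul_sum, mul_comm (wt ϑ (wp w)) (1 / (1 + ϑ))]
        congr 1
        refine Finset.sum_congr rfl fun x _ => ?_
        rw [Finset.mul_sum]
        refine Finset.sum_congr rfl fun y _ => ?_
        rw [mul_left_comm, Finset.mul_sum]
        congr 1
        refine Finset.sum_congr rfl fun z _ => ?_
        ring
      rw [show (fun w : Fin M → Lt (Fin d → ZMod L) => wt ϑ (wp w) * (F (wp w) - 1 / (1 + ϑ))) =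
        fun w => (∑ x, ∑ y, p x y * ∑ z, bx d L s y z * (wt ϑ (wp w) * sc (wp w) x z)) -
            1 / (1 + ϑ) * wt ϑ (wp w) from funext e1, mean_sub, mean_smul, mean_sum]
      congr 1
      refine Finset.sum_congr rfl fun x _ => ?_
      rw [mean_sum]
      refine Finset.sum_congr rfl fun y _ => ?_
      rw [mean_smul, mean_sum]
      congr 1
      refine Finset.sum_congr rfl fun z _ => ?_
      rw [mean_smul]
    rw [e]
    simp only [sc_eq] at h1
    refine h1.trans (mul_le_mul_of_nonneg_right ?_ hZ)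
    have hκ : 1 / (s : ℝ) ^ d ≤ δ := by
      have h2 : (s : ℝ) ≤ (s : ℝ) ^ d := le_self_pow₀ hsR (by omega)
      have h3 : 1 / δ ≤ (s : ℝ) ^ d := by
        refine le_trans ?_ (hAs.trans h2)
        rw [hAdef]; linarith
      rw [div_le_iff₀ hδ] at h3
      rw [div_le_iff₀ (by positivity)]
      linarith
    have hsq : Real.sqrt ((1 + 2 * d * (2 * d) * (s : ℝ) ^ 2) *
        (Fintype.card (Fin d → ZMod L) * (Real.log m + 2 * |Real.log ϑ|)) / M) ≤ δ := by
      refine Real.sqrt_le_iff.2 ⟨hδ.le, ?_⟩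
      rw [div_le_iff₀ hM0, ← hℓdef]
      have e2 : δ ^ 2 * (t * (2 * d) * Fintype.card (Fin d → ZMod L) / 2) ≤ δ ^ 2 * M :=
        mul_le_mul_of_nonneg_left hM (by positivity)
      refine le_trans ?_ e2
      have e3 : (1 + 2 * d * (2 * d) * (s : ℝ) ^ 2) * ℓ ≤ δ ^ 2 * (t * (2 * d) / 2) := by
        have a1 : 4 * (1 + 4 * (d : ℝ) ^ 2) * ℓ / δ ^ 2 * (s : ℝ) ^ 2 ≤ t := by
          refine le_trans (mul_le_mul_of_nonneg_right ?_ (by linarith)) hAt
          rw [hAdef]; linarith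
        have a2 : 4 * (1 + 4 * (d : ℝ) ^ 2) * ℓ * (s : ℝ) ^ 2 ≤ δ ^ 2 * t := by
          have : 4 * (1 + 4 * (d : ℝ) ^ 2) * ℓ * (s : ℝ) ^ 2 =
              δ ^ 2 * (4 * (1 + 4 * (d : ℝ) ^ 2) * ℓ / δ ^ 2 * (s : ℝ) ^ 2) := by field_simp
          rw [this]
          exact mul_le_mul_of_nonneg_left a1 (by positivity)
        have a3 : (1 + 2 * d * (2 * d) * (s : ℝ) ^ 2) * ℓ ≤
            4 * (1 + 4 * (d : ℝ) ^ 2) * ℓ * (s : ℝ) ^ 2 := by
          have : 1 + 2 * d * (2 * d) * (s : ℝ) ^ 2 ≤ 4 * (1 + 4 * (d : ℝ) ^ 2) * (s : ℝ) ^ 2 := by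
            nlinarith [mul_pos hdR hdR, mul_nonneg (mul_pos hdR hdR).le (sq_nonneg (s : ℝ))]
          calc (1 + 2 * d * (2 * d) * (s : ℝ) ^ 2) * ℓ
              ≤ (4 * (1 + 4 * (d : ℝ) ^ 2) * (s : ℝ) ^ 2) * ℓ :=
                mul_le_mul_of_nonneg_right this hℓ.le
            _ = _ := by ring
        have a4 : δ ^ 2 * t ≤ δ ^ 2 * (t * (2 * d) / 2) := by
          refine mul_le_mul_of_nonneg_left ?_ (by positivity)
          have : (1 : ℝ) ≤ d := by exact_mod_cast hd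
          nlinarith
        linarith
      calc (1 + 2 * d * (2 * d) * (s : ℝ) ^ 2) * (Fintype.card (Fin d → ZMod L) * ℓ)
          = ((1 + 2 * d * (2 * d) * (s : ℝ) ^ 2) * ℓ) * Fintype.card (Fin d → ZMod L) := by ring
        _ ≤ (δ ^ 2 * (t * (2 * d) / 2)) * Fintype.card (Fin d → ZMod L) :=
            mul_le_mul_of_nonneg_right e3 hn0.le
        _ = _ := by ring
    calc C * (1 / m + 1 / (s : ℝ) ^ d + Real.sqrt ((1 + 2 * d * (2 * d) * (s : ℝ) ^ 2) *
          (Fintype.card (Fin d → ZMod L) * (Real.log m + 2 * |Real.log ϑ|)) / M))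
        ≤ C * (δ + δ + δ) := mul_le_mul_of_nonneg_left (by linarith) hC.le
      _ = 3 * (C * δ) := by ring
      _ ≤ η / 2 / 2 := by rw [hCδ]; linarith
  -- replace the box at `y` by the box at `x`
  obtain ⟨G, hGdef⟩ : ∃ G : (Fin d → ZMod L) → (Fin d → ZMod L) → ℝ,
    G = fun x z => ∑ g, law (nnR d L) t g * (wt ϑ g * sc g x z) := ⟨_, rfl⟩
  obtain ⟨Z, hZdef⟩ : ∃ Z : ℝ, Z = ∑ g, law (nnR d L) t g * wt ϑ g := ⟨_, rfl⟩
  have hlaw := (Pool.Agent.TH268.PD.law_prob (nnR d L) t ht0.le hRR.nn).1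
  have hZ0 : 0 ≤ Z := by
    rw [hZdef]
    exact Finset.sum_nonneg fun g _ => mul_nonneg (hlaw g) (wt_pos hϑ g).le
  have hG0 : ∀ x z, 0 ≤ G x z := fun x z => by
    rw [hGdef]
    exact Finset.sum_nonneg fun g _ => mul_nonneg (hlaw g)
      (mul_nonneg (wt_pos hϑ g).le (sc_nonneg g x z))
  have hGZ : ∀ x z, G x z ≤ Z := fun x z => by
    rw [hGdef, hZdef]
    exact Finset.sum_le_sum fun g _ => mul_le_mul_of_nonneg_left
      (mul_le_of_le_one_right (wt_pos hϑ g).le (sc_le g x z)) (hlaw g)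
  have hTr' : ∀ x, ∑ z, bx d L s x z * G x z = ∑ z, bx d L s v z * G v z := by
    intro x
    have := hTr d L s t ϑ x v
    simp only [sc_eq] at this
    rw [hGdef]
    exact this
  have hFG : ∑ g, law (nnR d L) t g * (wt ϑ g * (F g - 1 / (1 + ϑ))) =
      ∑ x, ∑ y, p x y * ∑ z, bx d L s y z * G x z - 1 / (1 + ϑ) * Z := by
    have e1 : ∀ g, law (nnR d L) t g * (wt ϑ g * (F g - 1 / (1 + ϑ))) =
        (∑ x, ∑ y, p x y * ∑ z, bx d L s y z * (law (nnR d L) t g * (wt ϑ g * sc g x z))) -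
          1 / (1 + ϑ) * (law (nnR d L) t g * wt ϑ g) := by
      intro g
      have e2 : law (nnR d L) t g * (wt ϑ g * (F g - 1 / (1 + ϑ))) =
          (law (nnR d L) t g * wt ϑ g) * F g - 1 / (1 + ϑ) * (law (nnR d L) t g * wt ϑ g) := by
        ring
      rw [e2, hFdef, Finset.mul_sum]
      congr 1
      refine Finset.sum_congr rfl fun x _ => ?_
      rw [Finset.mul_sum]
      refine Finset.sum_congr rfl fun y _ => ?_
      rw [mul_left_comm, Finset.mul_sum]
      congr 1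
      refine Finset.sum_congr rfl fun z _ => ?_
      ring
    rw [Finset.sum_congr rfl fun g _ => e1 g, Finset.sum_sub_distrib, ← Finset.mul_sum, ← hZdef]
    congr 1
    rw [Finset.sum_comm]
    refine Finset.sum_congr rfl fun x _ => ?_
    rw [Finset.sum_comm]
    refine Finset.sum_congr rfl fun y _ => ?_
    rw [← Finset.mul_sum]
    congr 1
    rw [Finset.sum_comm]
    refine Finset.sum_congr rfl fun z _ => ?_
    rw [← Finset.mul_sum, hGdef]
  have hshift : |∑ x, ∑ y, p x y * ∑ z, bx d L s y z * G x z - ∑ z, bx d L s v z * G v z| ≤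
      2 / s * Z := by
    have e1 : ∑ z, bx d L s v z * G v z = ∑ x, ∑ y, p x y * ∑ z, bx d L s x z * G x z := by
      simp only [hTr']
      rw [← Finset.sum_congr rfl fun x _ => Finset.sum_mul _ _ _, ← Finset.sum_mul, hpsum, one_mul]
    rw [e1, ← Finset.sum_sub_distrib]
    refine (Finset.abs_sum_le_sum_abs _ _).trans ?_
    have e2 : ∀ x, |∑ y, p x y * ∑ z, bx d L s y z * G x z -
        ∑ y, p x y * ∑ z, bx d L s x z * G x z| ≤ ∑ y, p x y * (2 / s * Z) := by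
      intro x
      rw [← Finset.sum_sub_distrib]
      refine (Finset.abs_sum_le_sum_abs _ _).trans (Finset.sum_le_sum fun y _ => ?_)
      rw [← mul_sub, abs_mul, abs_of_nonneg (hp.nn x y)]
      rcases (hp.nn x y).eq_or_lt with h0 | h0
      · rw [← h0, zero_mul, zero_mul]
      · refine mul_le_mul_of_nonneg_left ?_ h0.le
        have hxy : 0 < nnR d L x y := by
          rw [hpdef] at h0
          unfold pJ at h0
          by_contra hcon
          push Not at hcon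
          have := div_nonpos_of_nonpos_of_nonneg hcon
            (by positivity : 0 ≤ 2 * (d : ℝ) * Fintype.card (Fin d → ZMod L))
          linarith
        rw [← Finset.sum_sub_distrib]
        refine (Finset.abs_sum_le_sum_abs _ _).trans ?_
        calc ∑ z, |bx d L s y z * G x z - bx d L s x z * G x z|
            ≤ ∑ z, |bx d L s y z - bx d L s x z| * Z := by
              refine Finset.sum_le_sum fun z _ => ?_
              rw [← sub_mul, abs_mul, abs_of_nonneg (hG0 x z)]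
              exact mul_le_mul_of_nonneg_left (hGZ x z) (abs_nonneg _)
          _ = (∑ z, |bx d L s y z - bx d L s x z|) * Z := by rw [Finset.sum_mul]
          _ ≤ 2 / s * Z := mul_le_mul_of_nonneg_right (hShf d L s x y hs1 hxy) hZ0
    calc ∑ x, |∑ y, p x y * ∑ z, bx d L s y z * G x z -
          ∑ y, p x y * ∑ z, bx d L s x z * G x z| ≤ ∑ x, ∑ y, p x y * (2 / s * Z) :=
          Finset.sum_le_sum fun x _ => e2 x
      _ = 2 / s * Z := by
          rw [← Finset.sum_congr rfl fun x _ => Finset.sum_mul _ _ _, ← Finset.sum_mul, hpsum,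
            one_mul]
  have hs4 : 2 / (s : ℝ) ≤ η / 2 := by
    have h3 : 4 / η ≤ s := by
      refine le_trans ?_ hAs
      rw [hAdef]; linarith
    rw [div_le_iff₀ hη] at h3
    rw [div_le_iff₀ (by linarith)]
    linarith
  rw [hFG, ← hZdef] at key
  rw [← hZdef]
  have hgoal : ∑ z, bx d L s v z * (∑ g, law (nnR d L) t g * (wt ϑ g * sc g v z)) =
      ∑ z, bx d L s v z * G v z := by rw [hGdef]
  rw [hgoal]
  have h5 : 2 / s * Z ≤ η / 2 * Z := mul_le_mul_of_nonneg_right hs4 hZ0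
  rw [abs_le] at key hshift ⊢
  constructor <;> linarith [key.1, key.2, hshift.1, hshift.2]

end

end Pool.Agent.Y105.RS
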