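import Pool.Agent.Y105.RS.All2
import Pool.Agent.Y105.RS.AsmE
import Pool.Agent.Y727.RS.NivW
import Pool.Agent.Y44.RS.Tr2

/-!
# Project RS: weighted random stirring on the torus
-/

set_option autoImplicit false

namespace Pool.Agent.Y105.RS

theorem h_nivw : S_NIVW := Pool.Agent.Y727.RS.nivw h_qrw h_flip h_smallw h_ind h_inv h_cnt h_nc

theorem h_tr2 : S_TR2 := Pool.Agent.Y44.RS.tr2

end Pool.Agent.Y105.RS
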