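import Pool.Agent.Y105.RS.StmC

/-!
# Project RS: two more statements on the torus (helper105)
-/

set_option autoImplicit false

open Finset Equiv

namespace Pool.Agent.Y105.RS

open Pool.Agent.TH268.PD (law)

/-- **RS-SHF.** Boxes at neighbouring points are almost the same. -/
def S_SHF : Prop := ∀ (d L s : ℕ) [NeZero L] (x y : Fin d → ZMod L), 1 ≤ s →
  0 < nnR d L x y → ∑ z, |bx d L s y z - bx d L s x z| ≤ 2 / s

open Classical in
/-- **RS-TR2.** Translation invariance of the two point function. -/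
def S_TR2 : Prop := ∀ (d L s : ℕ) [NeZero L] (t ϑ : ℝ) (v w : Fin d → ZMod L),
  ∑ z, bx d L s v z * ∑ g, law (nnR d L) t g * (ϑ ^ nc g * (if g.SameCycle v z then 1 else 0)) =
    ∑ z, bx d L s w z * ∑ g, law (nnR d L) t g * (ϑ ^ nc g * (if g.SameCycle w z then 1 else 0))

end Pool.Agent.Y105.RS
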