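import Pool.Agent.Y105.RS.Tor
import Pool.Agent.Y105.RS.StmD
import Pool.Agent.TH268.PD.StirDet

/-!
# Project RS: weighted random stirring on the torus, assembly
-/

set_option autoImplicit false

open Finset Equiv

namespace Pool.Agent.Y105.RS

open Pool.Agent.Y291.RS (mean_mono mean_smul mean_const mean_one mean_sub)
open Pool.Agent.TH268.PD (law)

section

variable {d L : ℕ} [NeZero L]

/-- from words to continuous time -/
theorem poi_J (hP : S_POIW) (hN : S_NC) (hd : 1 ≤ d) {D t ϑ : ℝ}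
    {J : (Fin d → ZMod L) → (Fin d → ZMod L) → ℝ} (h : RR d L D J) (hϑ : 0 < ϑ)
    (F : Perm (Fin d → ZMod L) → ℝ) (c η x : ℝ) (hF : ∀ g, |F g| ≤ 1) (hc : |c| ≤ 1)
    (hη : 0 < η) (hx : 8 / η ≤ x) (ht : 10 * (2 * |Real.log ϑ| + x) ≤ t)
    (hM : ∀ M : ℕ, t * D * Fintype.card (Fin d → ZMod L) / 2 ≤ M →
      |mean (pJ J D) M (fun w => wt ϑ (wp w) * (F (wp w) - c))| ≤
        η / 2 * mean (pJ J D) M (fun w => wt ϑ (wp w))) :
    |∑ g, law J t g * (wt ϑ g * (F g - c))| ≤ η * ∑ g, law J t g * wt ϑ g := by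
  have hD1 : 1 ≤ D := D_ge hd h
  have hn1 : (1 : ℝ) ≤ Fintype.card (Fin d → ZMod L) := by exact_mod_cast Fintype.card_pos
  have hx0 : 0 < x := lt_of_lt_of_le (by positivity) hx
  have habs := abs_nonneg (Real.log ϑ)
  have ht0 : 0 < t := by nlinarith
  have h1 := hP (Fin d → ZMod L) J D t (wt ϑ) F 1 c (η / 2)
    (Fintype.card (Fin d → ZMod L) * |Real.log ϑ|) h.nn h.reg (by linarith) ht0 hF hc
    (by positivity) (by positivity) (fun g => wt_ge hN hϑ g) (fun g => wt_le hN hϑ g) hM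
  refine h1.trans ?_
  have hZ : 0 ≤ ∑ g, law J t g * wt ϑ g :=
    Finset.sum_nonneg fun g _ => mul_nonneg
      ((Pool.Agent.TH268.PD.law_prob J t ht0.le h.nn).1 g) (wt_pos hϑ g).le
  refine mul_le_mul_of_nonneg_right ?_ hZ
  have h2 : Real.exp (2 * (Fintype.card (Fin d → ZMod L) * |Real.log ϑ|) -
      t * D * Fintype.card (Fin d → ZMod L) / 10) ≤ Real.exp (-x) := by
    rw [Real.exp_le_exp]
    have e1 : t * 1 * Fintype.card (Fin d → ZMod L) ≤ t * D * Fintype.card (Fin d → ZMod L) :=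
      mul_le_mul_of_nonneg_right (mul_le_mul_of_nonneg_left hD1 ht0.le) (by linarith)
    have e2 : (2 * |Real.log ϑ| + x) * Fintype.card (Fin d → ZMod L) ≤
        t / 10 * Fintype.card (Fin d → ZMod L) :=
      mul_le_mul_of_nonneg_right (by linarith) (by linarith)
    nlinarith
  have h3 : Real.exp (-x) ≤ η / 8 := by
    rw [Real.exp_neg]
    have e1 : 8 / η ≤ Real.exp x := by
      have := Real.add_one_le_exp x
      linarith
    have e2 : (Real.exp x)⁻¹ ≤ (8 / η)⁻¹ := inv_anti₀ (by positivity) e1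
    rwa [inv_div] at e2
  linarith

/-- **few points in short cycles** -/
theorem small_J (hc : S_CMP) (hP : S_POIW) (hN : S_NC) (hS : S_SMALLW) (d : ℕ) (hd : 1 ≤ d)
    (ϑ η : ℝ) (hϑ : 0 < ϑ) (hη : 0 < η) : ∃ A : ℝ, 0 < A ∧
    ∀ (L : ℕ) [NeZero L], 3 ≤ L → ∀ (D : ℝ) (J : (Fin d → ZMod L) → (Fin d → ZMod L) → ℝ),
      RR d L D J → ∀ (t : ℝ) (K : ℕ), 0 < t → 1 ≤ K → A * K ≤ Real.sqrt t ^ d →
      A * K ≤ (L : ℝ) ^ d →
      ∑ g, law J t g * (wt ϑ g * small K g) ≤ η * ∑ g, law J t g * wt ϑ g := by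
  obtain ⟨C, hC, H⟩ := hS
  obtain ⟨Q, hQdef⟩ : ∃ Q, Q = max ϑ ϑ⁻¹ := ⟨_, rfl⟩
  have hQ1 : 1 ≤ Q := by
    rw [hQdef]
    rcases le_total 1 ϑ with h1 | h1
    · exact h1.trans (le_max_left _ _)
    · exact (one_le_inv₀ hϑ).2 h1 |>.trans (le_max_right _ _)
  have hQ0 : 0 < Q := by linarith
  obtain ⟨δ, hδdef⟩ : ∃ δ, δ = η / (8 * C * Q) := ⟨_, rfl⟩
  have hδ : 0 < δ := by rw [hδdef]; positivity
  have hCQδ : C * Q * δ = η / 8 := by rw [hδdef]; field_simp
  obtain ⟨m₀, hm₀⟩ := exists_nat_gt (1 / δ)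
  obtain ⟨m, hm⟩ : ∃ m : ℕ, m = max m₀ 2 := ⟨_, rfl⟩
  have hm2 : 2 ≤ m := by rw [hm]; exact le_max_right _ _
  have hmR : (0 : ℝ) < m := by exact_mod_cast (by omega : 0 < m)
  have hmδ : 1 / (m : ℝ) ≤ δ := by
    have h1 : (m₀ : ℝ) ≤ m := by rw [hm]; exact_mod_cast le_max_left _ _
    rw [div_le_iff₀ hmR]
    rw [div_lt_iff₀ hδ] at hm₀
    nlinarith
  obtain ⟨ℓ, hℓdef⟩ : ∃ ℓ, ℓ = Real.log m + 2 * |Real.log ϑ| := ⟨_, rfl⟩
  have hlog : 0 < Real.log m := Real.log_pos (by exact_mod_cast (by omega : 1 < m))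
  have hℓ : 0 < ℓ := by rw [hℓdef]; positivity
  have hdR : (0 : ℝ) < d := by exact_mod_cast hd
  obtain ⟨c, hcdef⟩ : ∃ c, c = Real.sqrt (δ ^ 2 / (8 * d * ℓ)) := ⟨_, rfl⟩
  have hc0 : 0 < c := by rw [hcdef]; exact Real.sqrt_pos.2 (by positivity)
  have hc2 : c ^ 2 = δ ^ 2 / (8 * d * ℓ) := by rw [hcdef]; exact Real.sq_sqrt (by positivity)
  obtain ⟨T, hTdef⟩ : ∃ T, T = max (10 * (2 * |Real.log ϑ| + 8 / η))
    (max (4 * ℓ / δ ^ 2) (1 / c ^ 2)) := ⟨_, rfl⟩
  have hT0 : 0 < T := by rw [hTdef]; exact lt_of_lt_of_le (by positivity) (le_max_left _ _)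
  obtain ⟨A, hAdef⟩ : ∃ A, A = Real.sqrt T ^ d + 1 + 2 ^ d / (δ * c ^ d) + 2 ^ d / δ := ⟨_, rfl⟩
  have hA : 0 < A := by rw [hAdef]; positivity
  refine ⟨A, hA, ?_⟩
  intro L _ hL D J h t K ht hK hAK1 hAK2
  have hKR : (1 : ℝ) ≤ K := by exact_mod_cast hK
  have hLR : (0 : ℝ) < L := by exact_mod_cast (by omega : 0 < L)
  have hAK : A ≤ A * K := le_mul_of_one_le_right hA.le hKR
  have hsT : Real.sqrt T < Real.sqrt t := by
    by_contra hcon
    push Not at hcon
    have h1 : Real.sqrt t ^ d ≤ Real.sqrt T ^ d := pow_le_pow_left₀ (Real.sqrt_nonneg _) hcon d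
    have h2 : 0 < 2 ^ d / (δ * c ^ d) + 2 ^ d / δ := by positivity
    linarith
  have hTt : T ≤ t := by
    have := (Real.sqrt_lt_sqrt_iff hT0.le).1 hsT
    exact this.le
  have hT1 : 10 * (2 * |Real.log ϑ| + 8 / η) ≤ t := by
    rw [hTdef] at hTt; exact (le_max_left _ _).trans hTt
  have hT2 : 4 * ℓ / δ ^ 2 ≤ t := by
    rw [hTdef] at hTt; exact ((le_max_left _ _).trans (le_max_right _ _)).trans hTt
  have hT3 : 1 / c ^ 2 ≤ t := by
    rw [hTdef] at hTt; exact ((le_max_right _ _).trans (le_max_right _ _)).trans hTt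
  have hst : Real.sqrt t ^ 2 = t := Real.sq_sqrt ht.le
  have hst0 : 0 < Real.sqrt t := Real.sqrt_pos.2 ht
  have hct1 : 1 ≤ c * Real.sqrt t := by
    rw [div_le_iff₀ (by positivity)] at hT3
    have : 1 ^ 2 ≤ (c * Real.sqrt t) ^ 2 := by rw [mul_pow, hst, one_pow]; linarith
    exact le_of_sq_le_sq' this (by positivity)
  obtain ⟨y, hydef⟩ : ∃ y, y = min (c * Real.sqrt t) L := ⟨_, rfl⟩
  have hy1 : 1 ≤ y := by
    rw [hydef]; exact le_min hct1 (by exact_mod_cast (by omega : 1 ≤ L))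
  obtain ⟨s, hsdef⟩ : ∃ s : ℕ, s = ⌊y⌋₊ := ⟨_, rfl⟩
  have hs1 : 1 ≤ s := by rw [hsdef]; exact Nat.le_floor (by exact_mod_cast hy1)
  have hsy : (s : ℝ) ≤ y := by rw [hsdef]; exact Nat.floor_le (by linarith)
  have hsL : s ≤ L := by
    have : (s : ℝ) ≤ L := hsy.trans (by rw [hydef]; exact min_le_right _ _)
    exact_mod_cast this
  have hsct : (s : ℝ) ≤ c * Real.sqrt t := hsy.trans (by rw [hydef]; exact min_le_left _ _)
  have hs2 : y / 2 ≤ s := by
    have h1 := Nat.lt_floor_add_one y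
    rw [← hsdef] at h1
    have h2 : (1 : ℝ) ≤ s := by exact_mod_cast hs1
    linarith
  have hsR : (0 : ℝ) < s := by exact_mod_cast hs1
  have hκ : (K : ℝ) * (1 / (s : ℝ) ^ d) ≤ δ := by
    rw [mul_one_div, div_le_iff₀ (by positivity)]
    have h1 : (y / 2) ^ d ≤ (s : ℝ) ^ d := pow_le_pow_left₀ (by linarith) hs2 d
    refine le_trans ?_ (mul_le_mul_of_nonneg_left h1 hδ.le)
    rw [div_pow, ← mul_div_assoc, le_div_iff₀ (by positivity)]
    rcases le_total (c * Real.sqrt t) L with h2 | h2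
    · have e1 : y = c * Real.sqrt t := by rw [hydef]; exact min_eq_left h2
      rw [e1, mul_pow]
      have h3 : 2 ^ d / (δ * c ^ d) ≤ A := by
        rw [hAdef]
        have : 0 < Real.sqrt T ^ d + 1 + 2 ^ d / δ := by positivity
        linarith
      rw [div_le_iff₀ (by positivity)] at h3
      calc (K : ℝ) * 2 ^ d ≤ K * (A * (δ * c ^ d)) :=
            mul_le_mul_of_nonneg_left h3 (by positivity)
        _ = (A * K) * (δ * c ^ d) := by ring
        _ ≤ Real.sqrt t ^ d * (δ * c ^ d) := mul_le_mul_of_nonneg_right hAK1 (by positivity)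
        _ = _ := by ring
    · have e1 : y = L := by rw [hydef]; exact min_eq_right h2
      rw [e1]
      have h3 : 2 ^ d / δ ≤ A := by
        rw [hAdef]
        have : 0 < Real.sqrt T ^ d + 1 + 2 ^ d / (δ * c ^ d) := by positivity
        linarith
      rw [div_le_iff₀ (by positivity)] at h3
      calc (K : ℝ) * 2 ^ d ≤ K * (A * δ) := mul_le_mul_of_nonneg_left h3 (by positivity)
        _ = (A * K) * δ := by ring
        _ ≤ (L : ℝ) ^ d * δ := mul_le_mul_of_nonneg_right hAK2 (by positivity)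
        _ = _ := by ring
  have hD1 : 1 ≤ D := D_ge hd h
  have hD0 : 0 < D := by linarith
  have hn1 : (1 : ℝ) ≤ Fintype.card (Fin d → ZMod L) := by exact_mod_cast Fintype.card_pos
  have hn0 : (0 : ℝ) < Fintype.card (Fin d → ZMod L) := by linarith
  have hp : Wt (pJ J D) := wt_J hD0 h
  have key := poi_J hP hN hd h hϑ (small K) 0 η (8 / η) (fun g => ?_) (by simp) hη le_rfl hT1 ?_
  · simp only [sub_zero] at key
    exact (le_abs_self _).trans key
  · have h0 : 0 ≤ small K g := by unfold small; positivity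
    have h1 : small K g ≤ 1 := by
      unfold small
      rw [div_le_one hn0, ← Nat.card_eq_fintype_card]
      exact_mod_cast Nat.card_le_card_of_injective _ Subtype.val_injective
    rw [abs_of_nonneg h0]
    exact h1
  · intro M hM
    simp only [sub_zero]
    have hM0 : (0 : ℝ) < M := lt_of_lt_of_le (by positivity) hM
    have hM1 : 1 ≤ M := by exact_mod_cast (Nat.cast_pos (α := ℝ)).1 hM0
    have h1 := H (Fin d → ZMod L) (pJ J D) (bx d L s) (1 / (s : ℝ) ^ d)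
      (2 * d * D * (s : ℝ) ^ 2) hp (ker_J hc hd hL hs1 hsL) (by positivity)
      (cmp_J hc hd hL hs1 hsL hD0 h) m M K hm2 hM1 hK (wt ϑ) (wt ϑ)
      (2 * (Fintype.card (Fin d → ZMod L) * |Real.log ϑ|)) Q (fun g => (wt_pos hϑ g).le)
      (fun g => le_rfl) hQ1 (fun g x y => by rw [hQdef]; exact wt_flip hN hϑ g x y)
      (by positivity) (fun g => wt_mean hN hp M hϑ g)
    have hZ : 0 ≤ mean (pJ J D) M (fun w => wt ϑ (wp w)) := by
      rw [← mean_const hp M 0]
      exact mean_mono hp fun w => (wt_pos hϑ _).le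
    have hX : 0 ≤ mean (pJ J D) M (fun w => wt ϑ (wp w) * small K (wp w)) := by
      rw [← mean_const hp M 0]
      refine mean_mono hp fun w => mul_nonneg (wt_pos hϑ _).le ?_
      unfold small; positivity
    rw [abs_of_nonneg hX]
    refine h1.trans (mul_le_mul_of_nonneg_right ?_ hZ)
    have hsq : Real.sqrt ((1 + 2 * d * D * (s : ℝ) ^ 2) *
        (Fintype.card (Fin d → ZMod L) * Real.log m +
          2 * (Fintype.card (Fin d → ZMod L) * |Real.log ϑ|)) / M) ≤ δ := by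
      refine Real.sqrt_le_iff.2 ⟨hδ.le, ?_⟩
      rw [div_le_iff₀ hM0]
      have e1 : (Fintype.card (Fin d → ZMod L) * Real.log m +
          2 * (Fintype.card (Fin d → ZMod L) * |Real.log ϑ|) : ℝ) =
          Fintype.card (Fin d → ZMod L) * ℓ := by rw [hℓdef]; ring
      rw [e1]
      have e2 : δ ^ 2 * (t * D * Fintype.card (Fin d → ZMod L) / 2) ≤ δ ^ 2 * M :=
        mul_le_mul_of_nonneg_left hM (by positivity)
      refine le_trans ?_ e2
      have e3 : (1 + 2 * d * D * (s : ℝ) ^ 2) * ℓ ≤ δ ^ 2 * (t * D / 2) := by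
        have a1 : ℓ ≤ δ ^ 2 * t / 4 := by
          rw [div_le_iff₀ (by positivity)] at hT2
          linarith
        have a2 : (s : ℝ) ^ 2 ≤ c ^ 2 * t := by
          have : (s : ℝ) ^ 2 ≤ (c * Real.sqrt t) ^ 2 := pow_le_pow_left₀ hsR.le hsct 2
          rwa [mul_pow, hst] at this
        have a3 : 2 * d * ℓ * (s : ℝ) ^ 2 ≤ δ ^ 2 * t / 4 := by
          calc 2 * d * ℓ * (s : ℝ) ^ 2 ≤ 2 * d * ℓ * (c ^ 2 * t) :=
                mul_le_mul_of_nonneg_left a2 (by positivity)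
            _ = δ ^ 2 * t / 4 := by rw [hc2]; field_simp; ring
        have a4 : ℓ ≤ D * (δ ^ 2 * t / 4) := a1.trans (le_mul_of_one_le_left (by positivity) hD1)
        have a5 : D * (2 * d * ℓ * (s : ℝ) ^ 2) ≤ D * (δ ^ 2 * t / 4) :=
          mul_le_mul_of_nonneg_left a3 hD0.le
        nlinarith
      calc (1 + 2 * d * D * (s : ℝ) ^ 2) * (Fintype.card (Fin d → ZMod L) * ℓ)
          = ((1 + 2 * d * D * (s : ℝ) ^ 2) * ℓ) * Fintype.card (Fin d → ZMod L) := by ring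
        _ ≤ (δ ^ 2 * (t * D / 2)) * Fintype.card (Fin d → ZMod L) :=
            mul_le_mul_of_nonneg_right e3 hn0.le
        _ = _ := by ring
    calc C * Q * (1 / m + K * (1 / (s : ℝ) ^ d) + Real.sqrt ((1 + 2 * d * D * (s : ℝ) ^ 2) *
          (Fintype.card (Fin d → ZMod L) * Real.log m +
            2 * (Fintype.card (Fin d → ZMod L) * |Real.log ϑ|)) / M))
        ≤ C * Q * (δ + δ + δ) := by
          refine mul_le_mul_of_nonneg_left ?_ (by positivity)
          linarith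
      _ = 3 * (C * Q * δ) := by ring
      _ ≤ η / 2 := by rw [hCQδ]; linarith
where
  le_of_sq_le_sq' {a b : ℝ} (h : a ^ 2 ≤ b ^ 2) (hb : 0 ≤ b) : a ≤ b :=
    (abs_le_of_sq_le_sq' h hb).2

end

end Pool.Agent.Y105.RS
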