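import Mathlib

/-!
# Random stirring below the mixing time: definitions and statements (project RS, helper105)

A letter is an ordered pair of points and a bit; the letter acts by the transposition of the two
points if the bit is `true` and trivially otherwise.  A word is a sequence of `M` letters.
-/

set_option autoImplicit false

open Finset Equiv

namespace Pool.Agent.Y105.RS

/-- letters -/
abbrev Lt (V : Type) := (V × V) × Bool

section defs

variable {V : Type} [Fintype V] [DecidableEq V]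

/-- the permutation of a letter -/
def st (l : Lt V) : Perm V := if l.2 then swap l.1.1 l.1.2 else 1

/-- the product of the letters before the letter number `j` -/
def pre {M : ℕ} (w : Fin M → Lt V) (j : Fin M) : Perm V :=
  ((List.ofFn fun i => st (w i)).take j).prod

/-- the permutation of a word -/
def wp {M : ℕ} (w : Fin M → Lt V) : Perm V := (List.ofFn fun i => st (w i)).prod

/-- the two labels exchanged by the letter number `j` -/
def la {M : ℕ} (w : Fin M → Lt V) (j : Fin M) : V := pre w j (w j).1.1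

/-- the two labels exchanged by the letter number `j` -/
def lb {M : ℕ} (w : Fin M → Lt V) (j : Fin M) : V := pre w j (w j).1.2

/-- the mean over random words: independent letters, the pair `(x, y)` has probability `p x y` and
the bit is a fair coin -/
noncomputable def mean (p : V → V → ℝ) (M : ℕ) (F : (Fin M → Lt V) → ℝ) : ℝ :=
  ∑ w : Fin M → Lt V, (∏ i, p (w i).1.1 (w i).1.2 / 2) * F w

/-- the weights `p`: a symmetric probability on the pairs of different points, uniform marginals -/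
structure Wt (p : V → V → ℝ) : Prop where
  nn : ∀ x y, 0 ≤ p x y
  sym : ∀ x y, p x y = p y x
  diag : ∀ x, p x x = 0
  reg : ∀ x, ∑ y, p x y = 1 / Fintype.card V

/-- a probability kernel bounded by `κ` -/
structure Ker (r : V → V → ℝ) (κ : ℝ) : Prop where
  nn : ∀ y z, 0 ≤ r y z
  le : ∀ y z, r y z ≤ κ
  sum : ∀ y, ∑ z, r y z = 1

/-- comparison of the Dirichlet forms with constant `τ` -/
def Cmp (p r : V → V → ℝ) (τ : ℝ) : Prop := ∀ (m : ℕ) (f : (V → Fin m) → ℝ),
  (∑ y, ∑ z, r y z * ∑ ξ : V → Fin m, (f ξ - f (ξ ∘ swap y z)) ^ 2) / Fintype.card V ≤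
    τ * ∑ x, ∑ y, p x y * ∑ ξ : V → Fin m, (f ξ - f (ξ ∘ swap x y)) ^ 2

/-- the averaged function -/
noncomputable def gg {m : ℕ} (p r : V → V → ℝ) (h : Fin m → Fin m → ℝ) (ξ : V → Fin m) : ℝ :=
  ∑ x, ∑ y, p x y * ∑ z, r y z * h (ξ x) (ξ z)

/-- the constant `1 + rho` -/
noncomputable def rho (κ τ θ : ℝ) : ℝ := 2 * ((1 + 8 * τ) * θ ^ 2 + 2 * κ * |θ|)

/-- the length of the cycle of `v` -/
noncomputable def cl (σ : Perm V) (v : V) : ℕ := Nat.card {w : V // σ.SameCycle v w}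

/-- the proportion of the points in cycles of length at most `K` -/
noncomputable def small (K : ℕ) (σ : Perm V) : ℝ :=
  (Nat.card {v : V // cl σ v ≤ K} : ℝ) / Fintype.card V

/-- the first of the points `b` after `b i` is `b (π i)` -/
def Ind {k : ℕ} (g : Perm V) (b : Fin k → V) (π : Perm (Fin k)) : Prop :=
  ∀ i, ∃ n : ℕ, 1 ≤ n ∧ (g ^ n) (b i) = b (π i) ∧
    ∀ p, 1 ≤ p → p < n → (g ^ p) (b i) ∉ Set.range b

/-- the proportion of the tuples with induced permutation `π` -/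
noncomputable def tup (k : ℕ) (g : Perm V) (π : Perm (Fin k)) : ℝ :=
  (Nat.card {b : Fin k → V // Function.Injective b ∧ Ind g b π} : ℝ) / (Fintype.card V : ℝ) ^ k

/-- `d` is the first point of `D` on the forward orbit of `a` (`a` included) -/
def Fwd (σ : Perm V) (D : Finset V) (a d : V) : Prop :=
  d ∈ D ∧ ∃ n : ℕ, (σ ^ n) a = d ∧ ∀ p < n, (σ ^ p) a ∉ D

/-- `a` and `b` are separated by `D` -/
def Sep (σ : Perm V) (D : Finset V) (a b : V) : Prop :=
  a ∉ D ∧ b ∉ D ∧ ∃ d d', d ≠ d' ∧ Fwd σ D a d ∧ Fwd σ D b d'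

/-- the points of the tuples `z` (places different from `i`, `j`) and `u` -/
def marks {k r : ℕ} (z : Fin k → V) (i j : Fin k) (u : Fin r → V) : Finset V :=
  ((univ.filter fun l => l ≠ i ∧ l ≠ j).image z) ∪ univ.image u

end defs

/-- **RS-FORM.** The bound of the quadratic form. -/
def S_FORM : Prop := ∀ (V : Type) [Fintype V] [DecidableEq V] [Nonempty V] (p r : V → V → ℝ)
  (κ τ : ℝ), Wt p → Ker r κ → 0 ≤ τ → Cmp p r τ → ∀ (m : ℕ) (h : Fin m → Fin m → ℝ),
  (∀ a b, h a b = h b a) → (∀ a b, |h a b| ≤ 1) → ∀ θ : ℝ, |θ| ≤ 1 / 2 →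
  ∀ F : (V → Fin m) → ℝ,
    ∑ x, ∑ y, p x y * ∑ ξ : V → Fin m,
        Real.exp (θ * h (ξ x) (ξ y)) * ((F ξ + F (ξ ∘ swap x y)) / 2) ^ 2 ≤
      (1 + rho κ τ θ) * ∑ ξ : V → Fin m, Real.exp (θ * gg p r h ξ) * F ξ ^ 2

/-- **RS-ITER.** Exponential moments, summed over the colourings `c`. -/
def S_ITER : Prop := ∀ (V : Type) [Fintype V] [DecidableEq V] [Nonempty V] (p r : V → V → ℝ)
  (κ τ : ℝ), Wt p → Ker r κ → 0 ≤ τ → Cmp p r τ → ∀ (m : ℕ) (h : Fin m → Fin m → ℝ),
  (∀ a b, h a b = h b a) → (∀ a b, |h a b| ≤ 1) → ∀ θ : ℝ, |θ| ≤ 1 / 2 → ∀ M : ℕ,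
    ∑ c : V → Fin m, mean p M (fun w => Real.exp (θ * ∑ j,
        (h (c (la w j)) (c (lb w j)) - gg p r h (c ∘ pre w j)))) ≤
      2 * (m : ℝ) ^ Fintype.card V * (1 + rho κ τ θ) ^ M

/-- **RS-QR.** The pairs of labels exchanged by a random word are quasirandom, uniformly over all
colourings and functions chosen depending on the word. -/
def S_QR : Prop := ∀ (V : Type) [Fintype V] [DecidableEq V] [Nonempty V] (p r : V → V → ℝ)
  (κ τ : ℝ), Wt p → Ker r κ → 0 ≤ τ → Cmp p r τ → ∀ (m M : ℕ), 2 ≤ m → 1 ≤ M →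
  ∀ (T : Type) [Fintype T] [Nonempty T] (h : T → Fin m → Fin m → ℝ),
  (∀ t a b, h t a b = h t b a) → (∀ t a b, |h t a b| ≤ 1) →
  ∀ (t : (Fin M → Lt V) → T) (c : (Fin M → Lt V) → V → Fin m),
    |mean p M (fun w => (∑ j, (h (t w) (c w (la w j)) (c w (lb w j)) -
        gg p r (h (t w)) (c w ∘ pre w j))) / M)| ≤
      20 * Real.sqrt ((1 + τ) *
        (Fintype.card V * Real.log m + Real.log (Fintype.card T)) / M) + 4 * κ

/-- **RS-FLIP.** Flipping the bit of the letter number `j`. -/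
def S_FLIP : Prop := ∀ (V : Type) [Fintype V] [DecidableEq V] (p : V → V → ℝ) (M : ℕ)
  (j : Fin M) (Φ : Perm V → V → V → ℝ),
    mean p M (fun w => Φ (wp w) (la w j) (lb w j)) =
      mean p M (fun w => Φ (swap (la w j) (lb w j) * wp w) (la w j) (lb w j))

/-- **RS-MARK.** Random colourings by the first mark on the forward orbit. -/
def S_MARK : Prop := ∀ (V : Type) [Fintype V] [DecidableEq V] (m K : ℕ), 1 ≤ m → 1 ≤ K →
  ∃ (Ω : Type) (_ : Fintype Ω) (P : Ω → ℝ) (c : Perm V → Ω → V → Fin m),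
    (∀ ω, 0 ≤ P ω) ∧ ∑ ω, P ω = 1 ∧
    (∀ (σ : Perm V) (a b : V), (∃ k ≤ K, (σ ^ k) a = b) →
      1 / 2 ≤ ∑ ω, P ω * (if c σ ω a = c σ ω b then 1 else 0)) ∧
    (∀ (σ : Perm V) (a : V) (q : V → ℝ) (κ : ℝ), (∀ z, 0 ≤ q z) → (∀ z, q z ≤ κ) →
      ∑ z, q z = 1 →
      ∑ z, q z * ∑ ω, P ω * (if c σ ω a = c σ ω z then 1 else 0) ≤ 1 / m + (4 * K + 1) * κ)

/-- **RS-SMALL.** Few points are in short cycles. -/
def S_SMALL : Prop := ∃ C : ℝ, 0 < C ∧ ∀ (V : Type) [Fintype V] [DecidableEq V] [Nonempty V]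
  (p r : V → V → ℝ) (κ τ : ℝ), Wt p → Ker r κ → 0 ≤ τ → Cmp p r τ →
  ∀ (m M K : ℕ), 2 ≤ m → 1 ≤ M → 1 ≤ K →
    mean p M (fun w => small K (wp w)) ≤
      C * (1 / m + K * κ + Real.sqrt ((1 + τ) * (Fintype.card V * Real.log m) / M))

/-- **RS-IND.** Multiplication by the transposition of two separated marked points. -/
def S_IND : Prop := ∀ (V : Type) [Fintype V] [DecidableEq V] (σ : Perm V) (k : ℕ)
  (z : Fin k → V) (i j : Fin k), Function.Injective z → i ≠ j →
    (∀ π : Perm (Fin k), Ind σ z π ↔ Ind (swap (z i) (z j) * σ) z (swap i j * π)) ∧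
    (∀ D : Finset V, Sep σ D (z i) (z j) → Sep (swap (z i) (z j) * σ) D (z i) (z j))

/-- **RS-INV.** The induced permutation does not change when two separated marked points move
inside their arcs. -/
def S_INV : Prop := ∀ (V : Type) [Fintype V] [DecidableEq V] (σ : Perm V) (k : ℕ)
  (z z' : Fin k → V) (i j : Fin k) (D : Finset V) (d d' : V), i ≠ j →
    Function.Injective z → Function.Injective z' →
    (∀ l, l ≠ i → l ≠ j → z l = z' l ∧ z l ∈ D) →
    z i ∉ D → z j ∉ D → z' i ∉ D → z' j ∉ D → d ≠ d' →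
    Fwd σ D (z i) d → Fwd σ D (z' i) d → Fwd σ D (z j) d' → Fwd σ D (z' j) d' →
    ∀ π : Perm (Fin k), Ind σ z π → Ind σ z' π

/-- **RS-CNT.** Few pairs of tuples are not separated. -/
def S_CNT : Prop := ∀ (V : Type) [Fintype V] [DecidableEq V] [Nonempty V] (σ : Perm V)
  (k r K : ℕ) (i j : Fin k), i ≠ j → 1 ≤ r → K ≤ Fintype.card V →
    (Nat.card {b : (Fin k → V) × (Fin r → V) //
        ¬ Sep σ (marks b.1 i j b.2) (b.1 i) (b.1 j)} : ℝ) ≤
      (Fintype.card V : ℝ) ^ (k + r) * ((2 * (k + r) + 2) / Fintype.card V + 2 * small K σ +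
        2 * (1 - (K : ℝ) / Fintype.card V) ^ r + 2 / (r + 1))

/-- **RS-NIV.** The law of the induced permutation of `k` random points is almost invariant. -/
def S_NIV : Prop := ∀ (k : ℕ) (η : ℝ), 0 < η → ∃ A : ℝ, 0 < A ∧
  ∀ (V : Type) [Fintype V] [DecidableEq V] [Nonempty V] (p : V → V → ℝ) (τ : ℝ), Wt p → 0 ≤ τ →
  Cmp p (fun _ _ => 1 / (Fintype.card V : ℝ)) τ → ∀ M : ℕ, A ≤ Fintype.card V →
  A * (1 + τ) * Fintype.card V ≤ M → ∀ (i j : Fin k) (π : Perm (Fin k)), i ≠ j →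
    |mean p M (fun w => tup k (wp w) π) - mean p M (fun w => tup k (wp w) (swap i j * π))| ≤ η

/-- the nearest neighbour rates on the torus of side `L` -/
noncomputable def nnR (d L : ℕ) (x y : Fin d → ZMod L) : ℝ :=
  ((univ.filter fun i : Fin d => y = x + Pi.single i 1).card : ℝ) +
    ((univ.filter fun i : Fin d => x = y + Pi.single i 1).card : ℝ)

/-- the nearest neighbour probabilities on the torus of side `L` -/
noncomputable def nnp (d L : ℕ) (x y : Fin d → ZMod L) : ℝ := nnR d L x y / (2 * d * (L : ℝ) ^ d)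

/-- uniform points of the box of side `s` with the corner `y` -/
noncomputable def bx (d L s : ℕ) (y z : Fin d → ZMod L) : ℝ :=
  ((univ.filter fun v : Fin d → Fin s => z = y + fun i => ((v i : ℕ) : ZMod L)).card : ℝ) /
    (s : ℝ) ^ d

/-- **RS-CMP.** Comparison on the torus. -/
def S_CMP : Prop := ∀ (d L s : ℕ) [NeZero L], 1 ≤ d → 2 ≤ L → 1 ≤ s → s ≤ L →
  Wt (nnp d L) ∧ Ker (bx d L s) (1 / (s : ℝ) ^ d) ∧
    Cmp (nnp d L) (bx d L s) (4 * (d : ℝ) ^ 2 * (s : ℝ) ^ 2) ∧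
    ∀ y z, bx d L L y z = 1 / (Fintype.card (Fin d → ZMod L) : ℝ)

end Pool.Agent.Y105.RS
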