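import Pool.Agent.Y105.RS.Stm
import Pool.Agent.TH268.PD.LocU
import Pool.Agent.TH268.PD.Ord3
import Pool.Agent.TH268.PD.Uni

/-!
# Project RS: the statements which use the library on random stirring
-/

set_option autoImplicit false

open Finset Equiv

namespace Pool.Agent.Y105.RS

open Pool.Agent.TH268.PD (law top frac pdm)

/-- **RS-FIN.** Almost invariance of the laws of the induced permutations implies the
Poisson-Dirichlet law. -/
def S_FIN : Prop := ∀ (m : ℕ) (f : (Fin m → ℝ) → ℝ), Continuous f → ∀ C : ℝ, (∀ u, |f u| ≤ C) →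
  ∀ η : ℝ, 0 < η → ∃ (k : ℕ) (ε A : ℝ), 0 < ε ∧ 0 < A ∧
    ∀ (V : Type) [Fintype V] [DecidableEq V] [Nonempty V] (μ : Perm V → ℝ), (∀ g, 0 ≤ μ g) →
    ∑ g, μ g = 1 → A ≤ Fintype.card V →
    (∀ (i j : Fin k) (π : Perm (Fin k)), i ≠ j →
      |∑ g, μ g * tup k g π - ∑ g, μ g * tup k g (swap i j * π)| ≤ ε) →
    |∑ g, μ g * f (fun i => top (frac g) i) - pdm f| ≤ η

open Classical in
/-- **RS-TRV.** Translation invariance on the torus. -/
def S_TRV : Prop := ∀ (d L K : ℕ) [NeZero L] (t : ℝ) (v : Fin d → ZMod L),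
  ∑ g, law (nnR d L) t g * (if cl g v ≤ K then 1 else 0) = ∑ g, law (nnR d L) t g * small K g

end Pool.Agent.Y105.RS
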