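import Pool.Agent.Y105.RS.Stm
import Pool.Agent.Y105.RS.StmC
import Pool.Agent.Y291.RS.Niv
import Pool.Agent.Y998.CN.Tor

/-!
# Project RS: rates on the torus and weights
-/

set_option autoImplicit false

open Finset Equiv

namespace Pool.Agent.Y105.RS

open Pool.Agent.Y291.RS (mean_mono mean_smul mean_const mean_one)

/-- symmetric rates on the torus with constant row sums, at least one on nearest neighbours -/
structure RR (d L : ℕ) (D : ℝ) (J : (Fin d → ZMod L) → (Fin d → ZMod L) → ℝ) [NeZero L] : Prop where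
  nn : ∀ x y, 0 ≤ J x y
  sym : ∀ x y, J x y = J y x
  diag : ∀ x, J x x = 0
  reg : ∀ x, ∑ y, J x y = D
  nb : ∀ (x : Fin d → ZMod L) (k : Fin d), 1 ≤ J x (Function.update x k (x k + 1))

section torus

variable {d L : ℕ} [NeZero L]

theorem upd_add (x : Fin d → ZMod L) (k : Fin d) :
    Function.update x k (x k + 1) = x + Pi.single k 1 := by
  funext i
  by_cases h : i = k
  · subst h; simp
  · simp [Function.update_of_ne h, Pi.single_eq_of_ne h]

theorem upd_sub (x : Fin d → ZMod L) (k : Fin d) :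
    Function.update x k (x k - 1) = x - Pi.single k 1 := by
  funext i
  by_cases h : i = k
  · subst h; simp
  · simp [Function.update_of_ne h, Pi.single_eq_of_ne h]

theorem nnR_eq (hL : 3 ≤ L) (x y : Fin d → ZMod L) :
    nnR d L x y = Pool.Agent.Y998.ST.nnRate d L x y := by
  rw [Pool.Agent.Y998.ST.nn_eq hL, Finset.sum_add_distrib, nnR, add_comm]
  simp only [upd_add, upd_sub, Finset.sum_boole]
  congr 3
  ext i
  simp only [Finset.mem_filter, Finset.mem_univ, true_and]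
  exact ⟨fun h => by rw [h]; simp, fun h => by rw [h]; simp⟩

theorem nnR_le (hL : 3 ≤ L) {D : ℝ} {J : (Fin d → ZMod L) → (Fin d → ZMod L) → ℝ}
    (h : RR d L D J) (x y : Fin d → ZMod L) : nnR d L x y ≤ J x y := by
  rw [nnR_eq hL]
  unfold Pool.Agent.Y998.ST.nnRate
  split_ifs with hx
  · obtain ⟨a, ha | ha⟩ := hx
    · rw [ha]; exact h.nb x a
    · rw [h.sym, ha]; exact h.nb y a
  · exact h.nn x y

theorem D_ge (hd : 1 ≤ d) {D : ℝ} {J : (Fin d → ZMod L) → (Fin d → ZMod L) → ℝ}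
    (h : RR d L D J) : 1 ≤ D := by
  have h1 := h.nb 0 ⟨0, hd⟩
  have h2 : J 0 (Function.update 0 ⟨0, hd⟩ ((0 : Fin d → ZMod L) ⟨0, hd⟩ + 1)) ≤ ∑ y, J 0 y :=
    Finset.single_le_sum (f := fun y => J 0 y) (fun y _ => h.nn 0 y) (Finset.mem_univ _)
  rw [h.reg] at h2
  linarith

theorem card_tor : (Fintype.card (Fin d → ZMod L) : ℝ) = (L : ℝ) ^ d := by
  rw [Fintype.card_fun, ZMod.card, Fintype.card_fin]
  push_cast
  rfl

/-- the probabilities of the pairs -/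
noncomputable def pJ (J : (Fin d → ZMod L) → (Fin d → ZMod L) → ℝ) (D : ℝ)
    (x y : Fin d → ZMod L) : ℝ := J x y / (D * Fintype.card (Fin d → ZMod L))

theorem wt_J {D : ℝ} (hD : 0 < D) {J : (Fin d → ZMod L) → (Fin d → ZMod L) → ℝ}
    (h : RR d L D J) : Wt (pJ J D) where
  nn x y := div_nonneg (h.nn x y) (by positivity)
  sym x y := by unfold pJ; rw [h.sym]
  diag x := by unfold pJ; rw [h.diag, zero_div]
  reg x := by
    unfold pJ
    rw [← Finset.sum_div, h.reg, div_mul_eq_div_div, div_self hD.ne']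

theorem cmp_J (hc : S_CMP) (hd : 1 ≤ d) (hL : 3 ≤ L) {s : ℕ} (hs : 1 ≤ s) (hsL : s ≤ L) {D : ℝ}
    (hD : 0 < D) {J : (Fin d → ZMod L) → (Fin d → ZMod L) → ℝ} (h : RR d L D J) :
    Cmp (pJ J D) (bx d L s) (2 * d * D * (s : ℝ) ^ 2) := by
  intro m f
  refine ((hc d L s hd (by omega) hs hsL).2.2.1 m f).trans ?_
  rw [Finset.mul_sum, Finset.mul_sum]
  refine Finset.sum_le_sum fun x _ => ?_
  rw [Finset.mul_sum, Finset.mul_sum]
  refine Finset.sum_le_sum fun y _ => ?_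
  have hn : (0 : ℝ) < (L : ℝ) ^ d := by
    have : (0 : ℝ) < L := by exact_mod_cast (by omega : 0 < L)
    positivity
  have hdR : (0 : ℝ) < d := by exact_mod_cast hd
  have h1 : 4 * (d : ℝ) ^ 2 * (s : ℝ) ^ 2 * nnp d L x y ≤ 2 * d * D * (s : ℝ) ^ 2 * pJ J D x y := by
    unfold nnp pJ
    rw [card_tor]
    have e1 : 4 * (d : ℝ) ^ 2 * (s : ℝ) ^ 2 * (nnR d L x y / (2 * d * (L : ℝ) ^ d)) =
        2 * d * (s : ℝ) ^ 2 / (L : ℝ) ^ d * nnR d L x y := by field_simp; ring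
    have e2 : 2 * d * D * (s : ℝ) ^ 2 * (J x y / (D * (L : ℝ) ^ d)) =
        2 * d * (s : ℝ) ^ 2 / (L : ℝ) ^ d * J x y := by field_simp
    rw [e1, e2]
    exact mul_le_mul_of_nonneg_left (nnR_le hL h x y) (by positivity)
  have h2 : 0 ≤ ∑ ξ : (Fin d → ZMod L) → Fin m, (f ξ - f (ξ ∘ swap x y)) ^ 2 :=
    Finset.sum_nonneg fun _ _ => sq_nonneg _
  calc 4 * (d : ℝ) ^ 2 * (s : ℝ) ^ 2 * (nnp d L x y *
          ∑ ξ : (Fin d → ZMod L) → Fin m, (f ξ - f (ξ ∘ swap x y)) ^ 2)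
      = (4 * (d : ℝ) ^ 2 * (s : ℝ) ^ 2 * nnp d L x y) *
          ∑ ξ : (Fin d → ZMod L) → Fin m, (f ξ - f (ξ ∘ swap x y)) ^ 2 := by ring
    _ ≤ (2 * d * D * (s : ℝ) ^ 2 * pJ J D x y) *
          ∑ ξ : (Fin d → ZMod L) → Fin m, (f ξ - f (ξ ∘ swap x y)) ^ 2 :=
        mul_le_mul_of_nonneg_right h1 h2
    _ = _ := by ring

theorem ker_J (hc : S_CMP) (hd : 1 ≤ d) (hL : 3 ≤ L) {s : ℕ} (hs : 1 ≤ s) (hsL : s ≤ L) :
    Ker (bx d L s) (1 / (s : ℝ) ^ d) := (hc d L s hd (by omega) hs hsL).2.1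

theorem cmp_full (hc : S_CMP) (hd : 1 ≤ d) (hL : 3 ≤ L) {D : ℝ} (hD : 0 < D)
    {J : (Fin d → ZMod L) → (Fin d → ZMod L) → ℝ} (h : RR d L D J) :
    Cmp (pJ J D) (fun _ _ => 1 / (Fintype.card (Fin d → ZMod L) : ℝ))
      (2 * d * D * (L : ℝ) ^ 2) := by
  have h1 := cmp_J hc hd hL (by omega : 1 ≤ L) le_rfl hD h
  have h2 : bx d L L = fun _ _ => 1 / (Fintype.card (Fin d → ZMod L) : ℝ) := by
    funext y z
    exact (hc d L L hd (by omega) (by omega) le_rfl).2.2.2 y z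
  rwa [h2] at h1

end torus

section weights

variable {V : Type} [Fintype V] [DecidableEq V]

/-- the weight of a permutation -/
noncomputable def wt (ϑ : ℝ) (g : Perm V) : ℝ := ϑ ^ nc g

theorem wt_pos {ϑ : ℝ} (h : 0 < ϑ) (g : Perm V) : 0 < wt ϑ g := pow_pos h _

theorem wt_exp {ϑ : ℝ} (h : 0 < ϑ) (g : Perm V) : wt ϑ g = Real.exp (nc g * Real.log ϑ) := by
  unfold wt
  rw [mul_comm, Real.exp_mul, Real.exp_log h, Real.rpow_natCast]

theorem wt_le (hN : S_NC) {ϑ : ℝ} (h : 0 < ϑ) (g : Perm V) :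
    wt ϑ g ≤ Real.exp (Fintype.card V * |Real.log ϑ|) := by
  rw [wt_exp h, Real.exp_le_exp]
  have h1 : (nc g : ℝ) ≤ Fintype.card V := by exact_mod_cast hN.1 V g
  calc (nc g : ℝ) * Real.log ϑ ≤ nc g * |Real.log ϑ| :=
        mul_le_mul_of_nonneg_left (le_abs_self _) (by positivity)
    _ ≤ _ := mul_le_mul_of_nonneg_right h1 (abs_nonneg _)

theorem wt_ge (hN : S_NC) {ϑ : ℝ} (h : 0 < ϑ) (g : Perm V) :
    Real.exp (-(Fintype.card V * |Real.log ϑ|)) ≤ wt ϑ g := by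
  rw [wt_exp h, Real.exp_le_exp]
  have h1 : (nc g : ℝ) ≤ Fintype.card V := by exact_mod_cast hN.1 V g
  have h2 : (nc g : ℝ) * |Real.log ϑ| ≤ Fintype.card V * |Real.log ϑ| :=
    mul_le_mul_of_nonneg_right h1 (abs_nonneg _)
  have h3 : -((nc g : ℝ) * |Real.log ϑ|) ≤ nc g * Real.log ϑ := by
    rw [← mul_neg]
    exact mul_le_mul_of_nonneg_left (neg_abs_le _) (by positivity)
  linarith

theorem wt_mean [Nonempty V] (hN : S_NC) {p : V → V → ℝ} (hp : Wt p) (M : ℕ) {ϑ : ℝ}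
    (h : 0 < ϑ) (g : Perm V) :
    wt ϑ g ≤ Real.exp (2 * (Fintype.card V * |Real.log ϑ|)) *
      mean p M (fun w => wt ϑ (wp w)) := by
  have h1 : Real.exp (-(Fintype.card V * |Real.log ϑ|)) ≤ mean p M (fun w => wt ϑ (wp w)) := by
    rw [← mean_const hp M (Real.exp (-(Fintype.card V * |Real.log ϑ|)))]
    exact mean_mono hp fun w => wt_ge hN h _
  calc wt ϑ g ≤ Real.exp (Fintype.card V * |Real.log ϑ|) := wt_le hN h g
    _ = Real.exp (2 * (Fintype.card V * |Real.log ϑ|)) *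
        Real.exp (-(Fintype.card V * |Real.log ϑ|)) := by rw [← Real.exp_add]; congr 1; ring
    _ ≤ _ := mul_le_mul_of_nonneg_left h1 (Real.exp_pos _).le

theorem wt_flip (hN : S_NC) {ϑ : ℝ} (h : 0 < ϑ) (g : Perm V) (x y : V) :
    wt ϑ (swap x y * g) ≤ max ϑ ϑ⁻¹ * wt ϑ g := by
  have hg := wt_pos h g
  have hQ : 1 ≤ max ϑ ϑ⁻¹ := by
    rcases le_total 1 ϑ with h1 | h1
    · exact h1.trans (le_max_left _ _)
    · exact (one_le_inv₀ h).2 h1 |>.trans (le_max_right _ _)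
  by_cases hxy : x = y
  · subst hxy
    rw [swap_self]
    change wt ϑ (1 * g) ≤ _
    rw [one_mul]
    exact le_mul_of_one_le_left hg.le hQ
  · obtain ⟨-, h2, h3⟩ := hN.2.2.1 V g x y hxy
    by_cases hs : g.SameCycle x y
    · have h4 := h3 hs
      unfold wt
      rw [h4, pow_succ, mul_comm]
      exact mul_le_mul_of_nonneg_right (le_max_left _ _) (pow_pos h _).le
    · have h4 := h2 hs
      unfold wt
      rw [← h4, pow_succ]
      have e : max ϑ ϑ⁻¹ * (ϑ ^ nc (swap x y * g) * ϑ) =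
          (max ϑ ϑ⁻¹ * ϑ) * ϑ ^ nc (swap x y * g) := by ring
      rw [e]
      refine le_mul_of_one_le_left (pow_pos h _).le ?_
      calc (1 : ℝ) = ϑ⁻¹ * ϑ := (inv_mul_cancel₀ h.ne').symm
        _ ≤ _ := mul_le_mul_of_nonneg_right (le_max_right _ _) h.le

end weights

end Pool.Agent.Y105.RS
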